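import Pool.Agent.Lib.MP_defcf3_al.BRP.Base

/-! D6 (CYCLO): cyclotomic characters modulo powers of an odd prime ℓ (the parts of the file for 7 which are used
by ETA). -/

namespace BRP.H81

universe u

variable (ℓ : ℕ) [Fact ℓ.Prime] [Fact (Odd ℓ)]

theorem ne_two : ℓ ≠ 2 := by
  rintro rfl
  exact absurd (Fact.out : Odd 2) (by decide)

/-! ### The discrete logarithm to the base 1 + ℓ -/

omit [Fact (Nat.Prime ℓ)] [Fact (Odd ℓ)] in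
theorem isUnit8 (n : ℕ) : IsUnit (1 + (ℓ : ℕ) : ZMod (ℓ ^ (n + 1))) := by
  have h : ((1 + ℓ : ℕ) : ZMod (ℓ ^ (n + 1))) = 1 + (ℓ : ℕ) := by push_cast; rfl
  rw [← h, ZMod.isUnit_iff_coprime]
  apply Nat.Coprime.pow_right
  rw [Nat.coprime_add_self_left]
  exact Nat.coprime_one_left ℓ

/-- The unit 1 + ℓ. -/
noncomputable def e8 (n : ℕ) : (ZMod (ℓ ^ (n + 1)))ˣ := (isUnit8 ℓ n).unit

theorem e8_val (n : ℕ) : ((e8 ℓ n : (ZMod (ℓ ^ (n + 1)))ˣ) : ZMod (ℓ ^ (n + 1))) = 1 + (ℓ : ℕ) :=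
  IsUnit.unit_spec _

theorem orderOf_e8 (n : ℕ) : orderOf (e8 ℓ n) = ℓ ^ n := by
  rw [← orderOf_injective _ Units.coeHom_injective (e8 ℓ n), Units.coeHom_apply, e8_val]
  exact ZMod.orderOf_one_add_prime (p := ℓ) Fact.out (ne_two ℓ) n

variable {ℓ} in
theorem e8_pow_eq {n a b : ℕ} : e8 ℓ n ^ a = e8 ℓ n ^ b ↔ a ≡ b [MOD ℓ ^ n] := by
  rw [pow_eq_pow_iff_modEq, orderOf_e8]

theorem exists_log (n : ℕ) (x : (ZMod (ℓ ^ (n + 1)))ˣ) (hx : x ^ (ℓ ^ n) = 1) :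
    ∃ s : ZMod (ℓ ^ n), e8 ℓ n ^ s.val = x := by
  classical
  have hpos : 0 < ℓ ^ n := pow_pos (Fact.out : Nat.Prime ℓ).pos n
  have hc : IsCyclic (ZMod (ℓ ^ (n + 1)))ˣ :=
    ZMod.isCyclic_units_of_prime_pow ℓ Fact.out (ne_two ℓ) (n + 1)
  have h1 := IsCyclic.card_pow_eq_one_le (α := (ZMod (ℓ ^ (n + 1)))ˣ) (n := ℓ ^ n) hpos
  obtain ⟨S, hS⟩ : ∃ S : Finset (ZMod (ℓ ^ (n + 1)))ˣ, S = (Finset.range (ℓ ^ n)).image
      (fun a => e8 ℓ n ^ a) := ⟨_, rfl⟩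
  have hcard : S.card = ℓ ^ n := by
    rw [hS, Finset.card_image_of_injOn, Finset.card_range]
    intro a ha b hb hab
    have h2 := (e8_pow_eq (n := n)).mp hab
    rw [Nat.ModEq, Nat.mod_eq_of_lt (by simpa using ha), Nat.mod_eq_of_lt (by simpa using hb)] at h2
    exact h2
  have hsub : S ⊆ Finset.univ.filter (fun a : (ZMod (ℓ ^ (n + 1)))ˣ => a ^ (ℓ ^ n) = 1) := by
    intro y hy
    rw [hS, Finset.mem_image] at hy
    obtain ⟨a, -, rfl⟩ := hy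
    rw [Finset.mem_filter]
    refine ⟨Finset.mem_univ _, ?_⟩
    rw [← pow_mul, mul_comm, pow_mul]
    have h3 := pow_orderOf_eq_one (e8 ℓ n)
    rw [orderOf_e8] at h3
    rw [h3, one_pow]
  have heq := Finset.eq_of_subset_of_card_le hsub (by rw [hcard]; convert h1)
  have hxS : x ∈ S := by
    rw [heq, Finset.mem_filter]
    exact ⟨Finset.mem_univ _, hx⟩
  rw [hS, Finset.mem_image] at hxS
  obtain ⟨a, ha, rfl⟩ := hxS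
  refine ⟨(a : ZMod (ℓ ^ n)), ?_⟩
  rw [ZMod.val_natCast, Nat.mod_eq_of_lt (Finset.mem_range.mp ha)]

omit [Fact (Odd ℓ)] in
theorem pow6 (n : ℕ) (x : (ZMod (ℓ ^ (n + 1)))ˣ) : (x ^ (ℓ - 1)) ^ (ℓ ^ n) = 1 := by
  have h := ZMod.pow_totient x
  rw [Nat.totient_prime_pow_succ Fact.out] at h
  rw [← pow_mul, mul_comm]
  exact h

/-- The logarithm of `x^(ℓ-1)` to the base 1 + ℓ. -/
noncomputable def L (n : ℕ) (x : (ZMod (ℓ ^ (n + 1)))ˣ) : ZMod (ℓ ^ n) :=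
  (exists_log ℓ n (x ^ (ℓ - 1)) (pow6 ℓ n x)).choose

theorem L_spec (n : ℕ) (x : (ZMod (ℓ ^ (n + 1)))ˣ) : e8 ℓ n ^ (L ℓ n x).val = x ^ (ℓ - 1) :=
  (exists_log ℓ n (x ^ (ℓ - 1)) (pow6 ℓ n x)).choose_spec

theorem L_unique (n : ℕ) (x : (ZMod (ℓ ^ (n + 1)))ˣ) (s : ZMod (ℓ ^ n))
    (h : e8 ℓ n ^ s.val = x ^ (ℓ - 1)) : L ℓ n x = s := by
  rw [← L_spec] at h
  have h1 := (e8_pow_eq (n := n)).mp h
  rw [Nat.ModEq, Nat.mod_eq_of_lt (ZMod.val_lt _), Nat.mod_eq_of_lt (ZMod.val_lt _)] at h1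
  exact (ZMod.val_injective _ h1).symm

theorem L_mul (n : ℕ) (x y : (ZMod (ℓ ^ (n + 1)))ˣ) : L ℓ n (x * y) = L ℓ n x + L ℓ n y := by
  refine L_unique ℓ n _ _ ?_
  rw [mul_pow, ← L_spec ℓ n x, ← L_spec ℓ n y, ← pow_add]
  refine (e8_pow_eq (n := n)).mpr ?_
  rw [ZMod.val_add]
  exact Nat.mod_modEq _ _

/-! ### The characters -/

variable {F Ω : Type u} [Field F] [Field Ω] [Algebra F Ω]

/-- The ℓ-adic cyclotomic character. -/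
noncomputable def kap : (Ω ≃ₐ[F] Ω) →* ℤ_[ℓ]ˣ :=
  (cyclotomicCharacter Ω ℓ).comp (MulSemiringAction.toRingAut (Ω ≃ₐ[F] Ω) Ω)

/-- The cyclotomic character modulo `ℓ^(n+1)`. -/
noncomputable def kapn (n : ℕ) : (Ω ≃ₐ[F] Ω) →* (ZMod (ℓ ^ (n + 1)))ˣ :=
  (Units.map (PadicInt.toZModPow (p := ℓ) (n + 1)).toMonoidHom).comp (kap ℓ)

omit [Fact (Odd ℓ)] in
theorem kapn_val (n : ℕ) (g : Ω ≃ₐ[F] Ω) :
    ((kapn ℓ n g : (ZMod (ℓ ^ (n + 1)))ˣ) : ZMod (ℓ ^ (n + 1))) =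
      PadicInt.toZModPow (n + 1) ((kap ℓ g : ℤ_[ℓ]ˣ) : ℤ_[ℓ]) := rfl

omit [Fact (Odd ℓ)] in
theorem kapn_spec [∀ i, HasEnoughRootsOfUnity Ω (ℓ ^ i)] (n : ℕ) (g : Ω ≃ₐ[F] Ω) (t : Ωˣ)
    (ht : t ^ (ℓ ^ (n + 1)) = 1) : g • t = t ^ ((kapn ℓ n g : (ZMod (ℓ ^ (n + 1)))ˣ) :
      ZMod (ℓ ^ (n + 1))).val := by
  have h := cyclotomicCharacter.spec (L := Ω) ℓ (n := n + 1)
    (MulSemiringAction.toRingAut (Ω ≃ₐ[F] Ω) Ω g) (t : Ω) (by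
      have := congrArg Units.val ht
      simpa using this)
  apply Units.ext
  rw [Units.val_pow_eq_pow_val]
  exact h

omit [Fact (Odd ℓ)] in
theorem kapn_castHom (n k : ℕ) (g : Ω ≃ₐ[F] Ω) :
    ZMod.castHom (pow_dvd_pow ℓ (Nat.add_le_add_right (Nat.le_add_right n k) 1))
      (ZMod (ℓ ^ (n + 1))) ((kapn ℓ (n + k) g : (ZMod (ℓ ^ (n + k + 1)))ˣ) :
      ZMod (ℓ ^ (n + k + 1))) = ((kapn ℓ n g : (ZMod (ℓ ^ (n + 1)))ˣ) : ZMod (ℓ ^ (n + 1))) := by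
  rw [kapn_val, kapn_val]
  have h := PadicInt.zmod_cast_comp_toZModPow (p := ℓ) (n + 1) (n + k + 1) (by omega)
  exact congrFun (congrArg DFunLike.coe h) _

theorem isLocConst_of_root (t : Ωˣ) [Algebra.IsIntegral F Ω] {S : Type*}
    (f : (Ω ≃ₐ[F] Ω) → S) (h : ∀ g g' : Ω ≃ₐ[F] Ω, g • t = g' • t → f g = f g') :
    IsLocallyConstant f := by
  rw [IsLocallyConstant.iff_exists_open]
  intro g
  have hopen : IsOpen (MulAction.stabilizer (Ω ≃ₐ[F] Ω) (t : Ω) : Set (Ω ≃ₐ[F] Ω)) :=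
    stabilizer_isOpen_of_isIntegral (K := F) (t : Ω)
  refine ⟨(fun g' => g⁻¹ * g') ⁻¹' (MulAction.stabilizer (Ω ≃ₐ[F] Ω) (t : Ω) : Set (Ω ≃ₐ[F] Ω)),
    hopen.preimage (continuous_const.mul continuous_id), ?_, ?_⟩
  · simp
  · intro g' hg'
    have h1 : (g⁻¹ * g') • (t : Ω) = (t : Ω) := hg'
    apply h
    apply Units.ext
    have h2 : g' • (t : Ω) = g • (t : Ω) := by
      have h3 := congrArg (fun x => g • x) h1
      simp only [← mul_smul, mul_inv_cancel_left] at h3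
      exact h3
    exact h2

end BRP.H81
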